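import Pool.Agent.W634.AT.Roth

/-!
# A Rothberger space which is not omega-Rothberger, in ZFC

There is a zero-dimensional Hausdorff space `X` which is Rothberger (and Hurewicz) but not
omega-Rothberger; its square is not Lindelöf.

The space is the disjoint union of two topologies on the same Aronszajn tree `T`. For a set `S` of
limit ordinals let `T_S` be `T` with the nodes of height outside `S` isolated, while a node `t` of
height in `S` has the neighbourhoods `{t} ∪ {x : x` strictly above `t | ξ`, not above `t}`. If `S` is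
stationary, then by pressing down `T_S` is Rothberger; if `S` and `S'` are disjoint, then the diagonal
is an uncountable closed discrete subset of `T_S × T_S'`.
-/

set_option autoImplicit false

namespace Pool.Agent.Results.MP_f9bcb0_lc.RothbergerNotOmega

open Set

/-- `𝒰` is an open cover of `X`. -/
def IsCover {X : Type} [TopologicalSpace X] (𝒰 : Set (Set X)) : Prop :=
  (∀ U ∈ 𝒰, IsOpen U) ∧ ⋃₀ 𝒰 = univ

/-- `𝒰` is an `ω`-cover of `X`: an open cover without `X` as a member, such that every finite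
set lies in a member. -/
def IsOmegaCover {X : Type} [TopologicalSpace X] (𝒰 : Set (Set X)) : Prop :=
  IsCover 𝒰 ∧ univ ∉ 𝒰 ∧ ∀ F : Set X, F.Finite → ∃ U ∈ 𝒰, F ⊆ U

/-- The Rothberger property `S₁(O, O)`. -/
def Rothberger (X : Type) [TopologicalSpace X] : Prop :=
  ∀ 𝒰 : ℕ → Set (Set X), (∀ n, IsCover (𝒰 n)) →
    ∃ U : ℕ → Set X, (∀ n, U n ∈ 𝒰 n) ∧ IsCover (range U)

/-- The property `S₁(Ω, Ω)`. -/
def OmegaRothberger (X : Type) [TopologicalSpace X] : Prop :=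
  ∀ 𝒰 : ℕ → Set (Set X), (∀ n, IsOmegaCover (𝒰 n)) →
    ∃ U : ℕ → Set X, (∀ n, U n ∈ 𝒰 n) ∧ IsOmegaCover (range U)

/-- The Hurewicz property. -/
def Hurewicz (X : Type) [TopologicalSpace X] : Prop :=
  ∀ 𝒰 : ℕ → Set (Set X), (∀ n, IsCover (𝒰 n)) →
    ∃ F : ℕ → Set (Set X), (∀ n, (F n).Finite ∧ F n ⊆ 𝒰 n) ∧
      ∀ x : X, ∃ m, ∀ n ≥ m, x ∈ ⋃₀ F n

section

open Pool.Agent.W634.AT

variable {ι : Type} [LinearOrder ι] [WellFoundedLT ι] {T : Type}

/-- the pieces, for the sum of two such spaces -/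
lemma pieces (hc : ∀ a : ι, (Iio a).Countable)
    (hu : ∀ A : Set ι, A.Countable → ∃ b, ∀ a ∈ A, a < b)
    (A : Tree ι T) (S S' : Set ι) (hS : Stat S) (hS' : Stat S')
    (𝒰 : ℕ → Set (Set (Sp A S ⊕ Sp A S'))) (h : ∀ n, IsCover (𝒰 n)) :
    ∃ P : ℕ → Set (Sp A S ⊕ Sp A S'), (∀ x, ∃ k, x ∈ P k) ∧ ∀ n k, ∃ U ∈ 𝒰 n, P k ⊆ U := by
  have hcov : ∀ n x, ∃ U ∈ 𝒰 n, x ∈ U := by
    intro n x
    have : x ∈ ⋃₀ 𝒰 n := by rw [(h n).2]; trivial
    exact this
  obtain ⟨P, hP1, hP2⟩ := exists_pieces hc hu A S hS (fun n => (fun U => Sum.inl ⁻¹' U) '' 𝒰 n)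
    (by
      rintro n _ ⟨U, hU, rfl⟩
      exact (isOpen_sum_iff.mp ((h n).1 U hU)).1)
    (by
      intro n x
      obtain ⟨U, hU, hx⟩ := hcov n (Sum.inl x)
      exact ⟨_, ⟨U, hU, rfl⟩, hx⟩)
  obtain ⟨P', hP1', hP2'⟩ := exists_pieces hc hu A S' hS' (fun n => (fun U => Sum.inr ⁻¹' U) '' 𝒰 n)
    (by
      rintro n _ ⟨U, hU, rfl⟩
      exact (isOpen_sum_iff.mp ((h n).1 U hU)).2)
    (by
      intro n x
      obtain ⟨U, hU, hx⟩ := hcov n (Sum.inr x)
      exact ⟨_, ⟨U, hU, rfl⟩, hx⟩)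
  refine ⟨fun k => if k % 2 = 0 then Sum.inl '' P (k / 2) else Sum.inr '' P' (k / 2), ?_, ?_⟩
  · rintro (x | x)
    · obtain ⟨k, hk⟩ := hP1 x
      refine ⟨2 * k, ?_⟩
      have h1 : (2 * k) % 2 = 0 := by omega
      have h2 : (2 * k) / 2 = k := by omega
      simp only [h1, h2, if_true]
      exact ⟨x, hk, rfl⟩
    · obtain ⟨k, hk⟩ := hP1' x
      refine ⟨2 * k + 1, ?_⟩
      have h1 : ¬ (2 * k + 1) % 2 = 0 := by omega
      have h2 : (2 * k + 1) / 2 = k := by omega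
      simp only [h1, h2, if_false]
      exact ⟨x, hk, rfl⟩
  · intro n k
    by_cases hk : k % 2 = 0
    · obtain ⟨_, ⟨U, hU, rfl⟩, hPU⟩ := hP2 n (k / 2)
      refine ⟨U, hU, ?_⟩
      simp only [hk, if_true]
      rintro _ ⟨x, hx, rfl⟩
      exact hPU hx
    · obtain ⟨_, ⟨U, hU, rfl⟩, hPU⟩ := hP2' n (k / 2)
      refine ⟨U, hU, ?_⟩
      simp only [hk, if_false]
      rintro _ ⟨x, hx, rfl⟩
      exact hPU hx

omit [WellFoundedLT ι] in
/-- small boxes -/
lemma box (A : Tree ι T) (S S' : Set ι) (hd : Disjoint S S') (p q : Sp A S ⊕ Sp A S') :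
    ∃ U V : Set (Sp A S ⊕ Sp A S'), IsOpen U ∧ IsOpen V ∧ p ∈ U ∧ q ∈ V ∧
      {t : T | (Sum.inl t : Sp A S ⊕ Sp A S') ∈ U ∧ (Sum.inr t : Sp A S ⊕ Sp A S') ∈ V}.Finite := by
  rcases p with t | t
  · rcases q with s | s
    · refine ⟨univ, range Sum.inl, isOpen_univ, isOpen_range_inl, mem_univ _, ⟨s, rfl⟩, ?_⟩
      convert Set.finite_empty
      ext t
      simp
    · obtain ⟨U, V, h1, h2, h3, h4, h5⟩ := A.sep S S' hd t s
      refine ⟨Sum.inl '' U, Sum.inr '' V, isOpenMap_inl _ h1, isOpenMap_inr _ h2, ⟨t, h3, rfl⟩,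
        ⟨s, h4, rfl⟩, h5.subset ?_⟩
      rintro x ⟨⟨a, ha, ha'⟩, ⟨b, hb, hb'⟩⟩
      have e1 : a = x := Sum.inl_injective ha'
      have e2 : b = x := Sum.inr_injective hb'
      rw [e1] at ha
      rw [e2] at hb
      exact ⟨ha, hb⟩
  · refine ⟨range Sum.inr, univ, isOpen_range_inr, isOpen_univ, ⟨t, rfl⟩, mem_univ _, ?_⟩
    convert Set.finite_empty
    ext t
    simp

end

/-- **Main theorem.** There is a zero-dimensional Hausdorff space `X` (Hausdorff, with a base of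
clopen sets) which is Rothberger and Hurewicz, but not `ω`-Rothberger; the square `X × X` is not
Lindelöf. -/
theorem result : ∃ (X : Type) (_ : TopologicalSpace X),
    T2Space X ∧ TopologicalSpace.IsTopologicalBasis {s : Set X | IsClopen s} ∧
      Rothberger X ∧ Hurewicz X ∧ ¬ OmegaRothberger X ∧ ¬ LindelofSpace (X × X) := by
  classical
  obtain ⟨ι, _, _, hc, hu⟩ := Pool.Agent.Helper761.Om.exists_omega1
  obtain ⟨S, S', hS, hS', hd⟩ := Pool.Agent.W634.AT.exists_disjoint_stat hc hu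
  obtain ⟨T, ⟨A⟩⟩ := Pool.Agent.W634.AT.exists_tree hc hu
  have hunc : ¬ (univ : Set ι).Countable := by
    intro h
    obtain ⟨b, hb⟩ := hu _ h
    exact lt_irrefl b (hb b (mem_univ b))
  have hT : ¬ (univ : Set T).Countable := by
    intro h
    apply hunc
    have : (univ : Set ι) = A.ht '' univ := by
      ext ξ
      simp only [mem_univ, image_univ, mem_range, true_iff]
      exact A.tall ξ
    rw [this]
    exact h.image _
  refine ⟨Pool.Agent.W634.AT.Sp A S ⊕ Pool.Agent.W634.AT.Sp A S', inferInstance, inferInstance,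
    ?_, ?_, ?_, ?_, ?_⟩
  · refine TopologicalSpace.isTopologicalBasis_of_isOpen_of_nhds (fun s hs => hs.isOpen) ?_
    rintro (x | x) U hx hU
    · obtain ⟨V, h1, h2, h3⟩ := Pool.Agent.W634.AT.exists_clopen A S _
        (isOpen_sum_iff.mp hU).1 x hx
      refine ⟨Sum.inl '' V, ?_, ⟨x, h2, rfl⟩, ?_⟩
      · exact ⟨Topology.IsClosedEmbedding.inl.isClosedMap _ h1.isClosed, isOpenMap_inl _ h1.isOpen⟩
      · rintro _ ⟨y, hy, rfl⟩
        exact h3 hy
    · obtain ⟨V, h1, h2, h3⟩ := Pool.Agent.W634.AT.exists_clopen A S' _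
        (isOpen_sum_iff.mp hU).2 x hx
      refine ⟨Sum.inr '' V, ?_, ⟨x, h2, rfl⟩, ?_⟩
      · exact ⟨Topology.IsClosedEmbedding.inr.isClosedMap _ h1.isClosed, isOpenMap_inr _ h1.isOpen⟩
      · rintro _ ⟨y, hy, rfl⟩
        exact h3 hy
  · intro 𝒰 h𝒰
    obtain ⟨P, hP1, hP2⟩ := pieces hc hu A S S' hS hS' 𝒰 h𝒰
    choose U hU hPU using fun n => hP2 n n
    refine ⟨U, hU, ?_, ?_⟩
    · rintro _ ⟨n, rfl⟩
      exact (h𝒰 n).1 _ (hU n)
    · rw [eq_univ_iff_forall]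
      intro x
      obtain ⟨k, hk⟩ := hP1 x
      exact ⟨U k, ⟨k, rfl⟩, hPU k hk⟩
  · intro 𝒰 h𝒰
    obtain ⟨P, hP1, hP2⟩ := pieces hc hu A S S' hS hS' 𝒰 h𝒰
    choose U hU hPU using hP2
    refine ⟨fun n => (fun k => U n k) '' {k | k ≤ n}, fun n => ⟨?_, ?_⟩, ?_⟩
    · exact (Set.finite_le_nat n).image _
    · rintro _ ⟨k, _, rfl⟩
      exact hU n k
    · intro x
      obtain ⟨k, hk⟩ := hP1 x
      exact ⟨k, fun n hn => ⟨U n k, ⟨k, hn, rfl⟩, hPU n k hk⟩⟩
  · -- an omega-cover without countable omega-subcover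
    intro hΩ
    let X := Pool.Agent.W634.AT.Sp A S ⊕ Pool.Agent.W634.AT.Sp A S'
    let W : Set (Set X) := {U | IsOpen U ∧ {t : T | (Sum.inl t : X) ∈ U ∧ (Sum.inr t : X) ∈ U}.Finite}
    have hW : IsOmegaCover W := by
      have hfin : ∀ F : Set X, F.Finite → ∃ U ∈ W, F ⊆ U := by
        intro F hF
        choose U V h1 h2 h3 h4 h5 using fun p q : X => box A S S' hd p q
        let G : Set X := ⋃ p ∈ F, ⋂ q ∈ F, (U p q ∩ V q p)
        refine ⟨G, ⟨?_, ?_⟩, ?_⟩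
        · refine isOpen_biUnion fun p _ => ?_
          exact hF.isOpen_biInter fun q _ => (h1 p q).inter (h2 q p)
        · refine Set.Finite.subset (hF.biUnion fun p _ => hF.biUnion fun q _ => h5 p q) ?_
          rintro t ⟨ht1, ht2⟩
          simp only [G, mem_iUnion, mem_iInter, exists_prop] at ht1 ht2
          obtain ⟨p, hp, hp'⟩ := ht1
          obtain ⟨q, hq, hq'⟩ := ht2
          simp only [mem_iUnion, exists_prop]
          exact ⟨p, hp, q, hq, (hp' q hq).1, (hq' p hp).2⟩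
        · intro p hp
          simp only [G, mem_iUnion, mem_iInter, exists_prop]
          exact ⟨p, hp, fun q _ => ⟨h3 p q, h4 q p⟩⟩
      refine ⟨⟨fun U hU => hU.1, ?_⟩, ?_, hfin⟩
      · rw [eq_univ_iff_forall]
        intro x
        obtain ⟨U, hU, hx⟩ := hfin {x} (Set.finite_singleton x)
        exact ⟨U, hU, hx rfl⟩
      · intro h
        apply hT
        have := h.2
        simp only [mem_univ, and_self] at this
        exact (this.subset (fun x _ => trivial)).countable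
    obtain ⟨U, hU, -, -, h3⟩ := hΩ (fun _ => W) (fun _ => hW)
    apply hT
    have h4 : (⋃ n, {t : T | (Sum.inl t : X) ∈ U n ∧ (Sum.inr t : X) ∈ U n}).Countable :=
      countable_iUnion fun n => (hU n).2.countable
    refine h4.mono fun t _ => ?_
    let p : X := Sum.inl (show Pool.Agent.W634.AT.Sp A S from t)
    let q : X := Sum.inr (show Pool.Agent.W634.AT.Sp A S' from t)
    obtain ⟨_, ⟨n, rfl⟩, hn⟩ := h3 {p, q} ((Set.finite_singleton q).insert p)
    rw [mem_iUnion]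
    exact ⟨n, hn (Or.inl rfl), hn (Or.inr rfl)⟩
  · intro hL
    let X := Pool.Agent.W634.AT.Sp A S ⊕ Pool.Agent.W634.AT.Sp A S'
    choose U V h1 h2 h3 h4 h5 using fun p q : X => box A S S' hd p q
    obtain ⟨r, hr, hcov⟩ := (isLindelof_univ (X := X × X)).elim_nhds_subcover
      (fun p => U p.1 p.2 ×ˢ V p.1 p.2)
      (fun p _ => ((h1 p.1 p.2).prod (h2 p.1 p.2)).mem_nhds ⟨h3 p.1 p.2, h4 p.1 p.2⟩)
    apply hT
    have h6 : (⋃ p ∈ r, {t : T | (Sum.inl t : X) ∈ U p.1 p.2 ∧ (Sum.inr t : X) ∈ V p.1 p.2}).Countable :=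
      hr.biUnion fun p _ => (h5 p.1 p.2).countable
    refine h6.mono fun t _ => ?_
    have h7 : ((Sum.inl t, Sum.inr t) : X × X) ∈ ⋃ p ∈ r, U p.1 p.2 ×ˢ V p.1 p.2 := hcov.2 (mem_univ _)
    simp only [mem_iUnion, exists_prop] at h7 ⊢
    obtain ⟨p, hp, hp'⟩ := h7
    exact ⟨p, hp, hp'.1, hp'.2⟩

end Pool.Agent.Results.MP_f9bcb0_lc.RothbergerNotOmega
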